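import Mathlib

open Nat

namespace Pool.Agent.Results.MP_864c98_co.DenseRatios

/-- Number of derangements on the digraph with arc relation `E`. -/
noncomputable def der {V : Type} (E : V → V → Prop) : ℕ :=
  Nat.card {σ : Equiv.Perm V // ∀ v, E v (σ v)}

/-- Number of permutations on the digraph with arc relation `E`. -/
noncomputable def prm {V : Type} (E : V → V → Prop) : ℕ :=
  Nat.card {σ : Equiv.Perm V // ∀ v, σ v = v ∨ E v (σ v)}

/-- Arcs of the layered digraph on `Fin (n+2) × K`. -/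
def LArc {K : Type} {n : ℕ} (A C : K → Prop) (v w : Fin (n + 2) × K) : Prop :=
  w.1 = v.1 + 1 ∧ (v.1 = 0 → A v.2 → C w.2)


theorem exists_perm_extend {γ β : Type} [Finite β] (f f' : γ ↪ β) :
    ∃ π : Equiv.Perm β, ∀ x, π (f x) = f' x := by
  classical
  let e : {x // x ∈ Set.range f} ≃ {x // x ∈ Set.range f'} :=
    (Equiv.ofInjective f f.injective).symm.trans (Equiv.ofInjective f' f'.injective)
  refine ⟨e.extendSubtype, fun x => ?_⟩
  rw [e.extendSubtype_apply_of_mem _ ⟨x, rfl⟩]
  simp [e]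

theorem card_restr {α β : Type} [Finite α] [Finite β] (e0 : α ≃ β) (A : α → Prop)
    (C : β → Prop) :
    Nat.card {e : α ≃ β // ∀ a, A a → C (e a)} =
      (Nat.card {b // C b}).descFactorial (Nat.card {a // A a}) *
        (Nat.card α - Nat.card {a // A a})! := by
  classical
  have := Fintype.ofFinite α
  have := Fintype.ofFinite β
  let ρ : (α ≃ β) → ({a // A a} ↪ β) := fun e => (Function.Embedding.subtype A).trans e.toEmbedding
  have hρ : ∀ e x, ρ e x = e x.1 := fun e x => rfl
  have hle : Nat.card {a // A a} ≤ Nat.card β := by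
    rw [← Nat.card_congr e0]
    exact Nat.card_le_card_of_injective (Subtype.val : {a // A a} → α) Subtype.val_injective
  let f0 : {a // A a} ↪ β := ρ e0
  have hfib : ∀ f, Nat.card {e // ρ e = f} = Nat.card {e // ρ e = f0} := by
    intro f
    obtain ⟨π, hπ⟩ := exists_perm_extend f f0
    refine Nat.card_congr (Equiv.subtypeEquiv (Equiv.equivCongr (Equiv.refl α) π) ?_)
    intro e
    constructor
    · intro h
      ext x
      have h1 : e x.1 = f x := by rw [← hρ, h]
      simp only [hρ, Equiv.equivCongr_apply_apply, Equiv.refl_symm, Equiv.refl_apply]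
      rw [h1, hπ]
    · intro h
      ext x
      have h1 : π (e x.1) = f0 x := by rw [← h]; simp [hρ]
      rw [← hπ] at h1
      exact π.injective h1
  have htot : (Nat.card β)! = (Nat.card β).descFactorial (Nat.card {a // A a}) *
      Nat.card {e // ρ e = f0} := by
    have h1 : Nat.card (α ≃ β) = (Nat.card β)! := by
      rw [Nat.card_eq_fintype_card, Fintype.card_equiv e0, Nat.card_eq_fintype_card,
        Fintype.card_congr e0]
    rw [← h1, ← Nat.card_congr (Equiv.sigmaFiberEquiv ρ), Nat.card_sigma,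
      Finset.sum_congr rfl (fun f _ => hfib f)]
    rw [Finset.sum_const, Finset.card_univ, Fintype.card_embedding_eq, smul_eq_mul]
    simp only [Nat.card_eq_fintype_card]
  have hM : Nat.card {e // ρ e = f0} = (Nat.card β - Nat.card {a // A a})! := by
    have h2 := Nat.factorial_mul_descFactorial hle
    rw [← h2, mul_comm] at htot
    exact (Nat.eq_of_mul_eq_mul_left (Nat.descFactorial_pos.mpr hle) htot).symm
  let Q : ({a // A a} ↪ β) → Prop := fun f => ∀ x, C (f x)
  let ρ' : {e : α ≃ β // ∀ a, A a → C (e a)} → {f // Q f} :=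
    fun e => ⟨ρ e.1, fun x => e.2 _ x.2⟩
  have hfib' : ∀ f : {f // Q f}, Nat.card {e // ρ' e = f} =
      (Nat.card β - Nat.card {a // A a})! := by
    intro f
    rw [← hM, ← hfib f.1]
    refine Nat.card_congr ⟨fun e => ⟨e.1.1, ?_⟩, fun e => ⟨⟨e.1, ?_⟩, ?_⟩, ?_, ?_⟩
    · have := congrArg Subtype.val e.2
      exact this
    · intro a ha
      have h1 : e.1 a = f.1 ⟨a, ha⟩ := DFunLike.congr_fun e.2 ⟨a, ha⟩
      rw [h1]; exact f.2 _
    · apply Subtype.ext
      exact e.2
    · intro e; rfl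
    · intro e; rfl
  rw [← Nat.card_congr (Equiv.sigmaFiberEquiv ρ'), Nat.card_sigma,
    Finset.sum_congr rfl (fun f _ => hfib' f), Finset.sum_const, Finset.card_univ, smul_eq_mul,
    Nat.card_congr e0]
  congr 1
  have h3 : Fintype.card {f // Q f} = Nat.card ({a // A a} ↪ {b // C b}) := by
    rw [← Nat.card_eq_fintype_card]
    refine Nat.card_congr ⟨fun f => ⟨fun x => ⟨f.1 x, f.2 x⟩, ?_⟩,
      fun f => ⟨f.trans (Function.Embedding.subtype _), fun x => (f x).2⟩, ?_, ?_⟩
    · intro x y h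
      have := congrArg Subtype.val h
      exact f.1.injective this
    · intro f; rfl
    · intro f; rfl
  rw [h3, Nat.card_eq_fintype_card, Fintype.card_embedding_eq, Nat.card_eq_fintype_card,
    Nat.card_eq_fintype_card]

section
variable {K : Type} {n : ℕ}

theorem succ_ne (j : Fin (n + 2)) : j + 1 ≠ j := by
  intro h
  have : (1 : Fin (n + 2)) = 0 := by
    have h' : j + 1 = j + 0 := by rw [h, add_zero]
    exact add_left_cancel h'
  exact one_ne_zero this

/-- allowed bijections in stage `j` -/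
def Stage (A C : K → Prop) (S : Fin (n + 2) → Finset K) (j : Fin (n + 2)) : Type :=
  {e : (S j : Set K) ≃ (S (j + 1) : Set K) // j = 0 → ∀ a, A a.1 → C (e a).1}

open Classical in
noncomputable def stepFun (A C : K → Prop) (S : Fin (n + 2) → Finset K)
    (e : ∀ j, Stage A C S j) (v : Fin (n + 2) × K) : Fin (n + 2) × K :=
  if h : v.2 ∈ S v.1 then (v.1 + 1, ((e v.1).1 ⟨v.2, h⟩).1) else v

theorem stepFun_pos (A C : K → Prop) (S : Fin (n + 2) → Finset K)
    (e : ∀ j, Stage A C S j) (j : Fin (n + 2)) (a : K) (h : a ∈ S j) :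
    stepFun A C S e (j, a) = (j + 1, ((e j).1 ⟨a, h⟩).1) := by
  unfold stepFun
  rw [dif_pos h]

theorem stepFun_neg (A C : K → Prop) (S : Fin (n + 2) → Finset K)
    (e : ∀ j, Stage A C S j) (j : Fin (n + 2)) (a : K) (h : a ∉ S j) :
    stepFun A C S e (j, a) = (j, a) := by
  unfold stepFun
  rw [dif_neg h]

theorem stepFun_inj (A C : K → Prop) (S : Fin (n + 2) → Finset K)
    (e : ∀ j, Stage A C S j) : Function.Injective (stepFun A C S e) := by
  rintro ⟨j, a⟩ ⟨j', a'⟩ h
  by_cases h1 : a ∈ S j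
  · by_cases h2 : a' ∈ S j'
    · rw [stepFun_pos _ _ _ _ _ _ h1, stepFun_pos _ _ _ _ _ _ h2] at h
      obtain ⟨h3, h4⟩ := Prod.mk.injEq _ _ _ _ ▸ h
      have h5 : j = j' := add_right_cancel h3
      subst h5
      have h6 := (e j).1.injective (Subtype.ext h4)
      have h7 : a = a' := congrArg Subtype.val h6
      rw [h7]
    · rw [stepFun_pos _ _ _ _ _ _ h1, stepFun_neg _ _ _ _ _ _ h2] at h
      exfalso
      obtain ⟨h3, h4⟩ := Prod.mk.injEq _ _ _ _ ▸ h
      apply h2
      rw [← h3, ← h4]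
      exact ((e j).1 ⟨a, h1⟩).2
  · by_cases h2 : a' ∈ S j'
    · rw [stepFun_neg _ _ _ _ _ _ h1, stepFun_pos _ _ _ _ _ _ h2] at h
      exfalso
      obtain ⟨h3, h4⟩ := Prod.mk.injEq _ _ _ _ ▸ h
      apply h1
      rw [h3, h4]
      exact ((e j').1 ⟨a', h2⟩).2
    · rw [stepFun_neg _ _ _ _ _ _ h1, stepFun_neg _ _ _ _ _ _ h2] at h
      exact h

variable [Finite K]

noncomputable def PhiFun (A C : K → Prop)
    (x : Σ S : Fin (n + 2) → Finset K, ∀ j, Stage A C S j) :
    {σ : Equiv.Perm (Fin (n + 2) × K) // ∀ v, σ v = v ∨ LArc A C v (σ v)} :=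
  ⟨Equiv.ofBijective (stepFun A C x.1 x.2)
    (Finite.injective_iff_bijective.mp (stepFun_inj A C x.1 x.2)), by
    rintro ⟨j, a⟩
    rw [Equiv.ofBijective_apply]
    by_cases h : a ∈ x.1 j
    · right
      rw [stepFun_pos _ _ _ _ _ _ h]
      refine ⟨rfl, fun h0 hA => (x.2 j).2 h0 ⟨a, h⟩ hA⟩
    · left
      exact stepFun_neg _ _ _ _ _ _ h⟩

theorem PhiFun_apply (A C : K → Prop)
    (x : Σ S : Fin (n + 2) → Finset K, ∀ j, Stage A C S j) (v : Fin (n + 2) × K) :
    (PhiFun A C x).1 v = stepFun A C x.1 x.2 v := rfl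

theorem PhiFun_bij (A C : K → Prop) : Function.Bijective (PhiFun (n := n) A C) := by
  classical
  constructor
  · rintro ⟨S, e⟩ ⟨S', e'⟩ h
    have h1 : ∀ v, stepFun A C S e v = stepFun A C S' e' v := by
      intro v
      rw [← PhiFun_apply A C ⟨S, e⟩, ← PhiFun_apply A C ⟨S', e'⟩, h]
    have h2 : S = S' := by
      funext j
      ext a
      have key : ∀ (T : Fin (n + 2) → Finset K) (f : ∀ j, Stage A C T j),
          a ∈ T j ↔ stepFun A C T f (j, a) ≠ (j, a) := by
        intro T f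
        constructor
        · intro h3 h4
          rw [stepFun_pos _ _ _ _ _ _ h3] at h4
          exact succ_ne j (congrArg Prod.fst h4)
        · intro h3
          by_contra h4
          exact h3 (stepFun_neg _ _ _ _ _ _ h4)
      rw [key S e, key S' e', h1]
    subst h2
    have h3 : e = e' := by
      funext j
      apply Subtype.ext
      ext a
      have h4 := h1 (j, a.1)
      rw [stepFun_pos _ _ _ _ _ _ a.2, stepFun_pos _ _ _ _ _ _ a.2] at h4
      exact congrArg Prod.snd h4
    rw [h3]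
  · rintro ⟨σ, hσ⟩
    have := Fintype.ofFinite K
    let S : Fin (n + 2) → Finset K := fun j => Finset.univ.filter fun a => σ (j, a) ≠ (j, a)
    have hS : ∀ j a, a ∈ S j ↔ σ (j, a) ≠ (j, a) := by
      intro j a; simp [S]
    have hstep : ∀ j a, a ∈ S j → (σ (j, a)).1 = j + 1 ∧ (σ (j, a)).2 ∈ S (j + 1) := by
      intro j a ha
      have h1 : (σ (j, a)).1 = j + 1 := ((hσ (j, a)).resolve_left ((hS j a).mp ha)).1
      refine ⟨h1, ?_⟩
      rw [hS]
      intro h2
      have h3 : (j + 1, (σ (j, a)).2) = σ (j, a) := by rw [← h1]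
      rw [h3] at h2
      exact ((hS j a).mp ha) (σ.injective h2)
    have hbij : ∀ j, Function.Bijective (fun a : (S j : Set K) =>
        (⟨(σ (j, a.1)).2, (hstep j a.1 a.2).2⟩ : (S (j + 1) : Set K))) := by
      intro j
      constructor
      · intro a a' h
        have h1 : (σ (j, a.1)).2 = (σ (j, a'.1)).2 := congrArg Subtype.val h
        have h2 : σ (j, a.1) = σ (j, a'.1) :=
          Prod.ext ((hstep j a.1 a.2).1.trans (hstep j a'.1 a'.2).1.symm) h1
        exact Subtype.ext (congrArg Prod.snd (σ.injective h2))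
      · rintro ⟨b, hb⟩
        obtain ⟨⟨j', a'⟩, hv⟩ := σ.surjective (j + 1, b)
        have hb' := (hS (j + 1) b).mp hb
        have h1 : σ (j', a') ≠ (j', a') := by
          intro h2
          rw [hv] at h2
          apply hb'
          rw [← h2] at hv
          exact hv
        have h3 := (hσ (j', a')).resolve_left h1
        have h4 : j + 1 = j' + 1 := by
          have := h3.1
          rw [hv] at this
          exact this
        have h5 : j = j' := add_right_cancel h4
        subst h5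
        refine ⟨⟨a', (hS j a').mpr h1⟩, ?_⟩
        apply Subtype.ext
        simp [hv]
    refine ⟨⟨S, fun j => ⟨Equiv.ofBijective _ (hbij j), ?_⟩⟩, ?_⟩
    · intro h0 a hA
      have h1 := (hσ (j, a.1)).resolve_left ((hS j a.1).mp a.2)
      exact h1.2 h0 hA
    · apply Subtype.ext
      ext1 ⟨j, a⟩
      rw [PhiFun_apply]
      by_cases h : a ∈ S j
      · rw [stepFun_pos _ _ _ _ _ _ h]
        exact Prod.ext (hstep j a h).1.symm rfl
      · rw [stepFun_neg _ _ _ _ _ _ h]
        have := mt (hS j a).mpr h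
        push Not at this
        exact this.symm

noncomputable def PsiFun (A C : K → Prop)
    (e : ∀ j : Fin (n + 2), {e : K ≃ K // j = 0 → ∀ a, A a → C (e a)}) :
    {σ : Equiv.Perm (Fin (n + 2) × K) // ∀ v, LArc A C v (σ v)} :=
  ⟨Equiv.ofBijective (fun v => (v.1 + 1, (e v.1).1 v.2))
    (Finite.injective_iff_bijective.mp (by
      rintro ⟨j, a⟩ ⟨j', a'⟩ h
      have h1 : j = j' := add_right_cancel (congrArg Prod.fst h)
      subst h1
      have h2 : a = a' := (e j).1.injective (congrArg Prod.snd h)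
      rw [h2])), by
    rintro ⟨j, a⟩
    exact ⟨rfl, fun h0 hA => (e j).2 h0 a hA⟩⟩

theorem PsiFun_bij (A C : K → Prop) : Function.Bijective (PsiFun (n := n) A C) := by
  constructor
  · intro e e' h
    funext j
    apply Subtype.ext
    ext a
    have h1 : (PsiFun A C e).1 (j, a) = (PsiFun A C e').1 (j, a) := by rw [h]
    exact congrArg Prod.snd h1
  · rintro ⟨σ, hσ⟩
    have hbij : ∀ j, Function.Bijective (fun a : K => (σ (j, a)).2) := by
      intro j
      refine Finite.injective_iff_bijective.mp ?_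
      intro a a' h
      have h2 : σ (j, a) = σ (j, a') := Prod.ext ((hσ (j, a)).1.trans (hσ (j, a')).1.symm) h
      exact congrArg Prod.snd (σ.injective h2)
    refine ⟨fun j => ⟨Equiv.ofBijective _ (hbij j), fun h0 a hA => (hσ (j, a)).2 h0 hA⟩, ?_⟩
    apply Subtype.ext
    ext1 ⟨j, a⟩
    exact Prod.ext (hσ (j, a)).1.symm rfl

theorem prm_eq [Fintype K] (A C : K → Prop) :
    prm (LArc (n := n) A C) = ∑ S : Fin (n + 2) → Finset K, ∏ j, Nat.card (Stage A C S j) := by
  classical
  unfold prm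
  rw [← Nat.card_congr (Equiv.ofBijective _ (PhiFun_bij (n := n) A C))]
  have : ∀ (S : Fin (n + 2) → Finset K) (j : Fin (n + 2)), Finite (Stage A C S j) := by
    intro S j
    unfold Stage
    infer_instance
  rw [Nat.card_sigma]
  refine Finset.sum_congr rfl fun S _ => ?_
  rw [Nat.card_pi]

theorem der_eq (A C : K → Prop) :
    der (LArc (n := n) A C) =
      ∏ j : Fin (n + 2), Nat.card {e : K ≃ K // j = 0 → ∀ a, A a → C (e a)} := by
  classical
  unfold der
  rw [← Nat.card_congr (Equiv.ofBijective _ (PsiFun_bij (n := n) A C))]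
  rw [Nat.card_pi]

end

section count
variable {K : Type} [Fintype K] {n : ℕ}

theorem card_coe (S : Finset K) : Nat.card (S : Set K) = S.card := by
  simp

theorem stage_ne_zero {A C : K → Prop} {S : Fin (n + 2) → Finset K} {j : Fin (n + 2)}
    (h : Nat.card (Stage A C S j) ≠ 0) : (S j).card = (S (j + 1)).card := by
  have h1 : Nonempty (Stage A C S j) := by
    by_contra h2
    rw [not_nonempty_iff] at h2
    exact h (Nat.card_of_isEmpty)
  obtain ⟨e, -⟩ := h1
  rw [← card_coe, ← card_coe]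
  exact Nat.card_congr e

theorem stage_card_ne {A C : K → Prop} {S : Fin (n + 2) → Finset K} {j : Fin (n + 2)}
    (hj : j ≠ 0) {i : ℕ} (h : (S j).card = i) (h' : (S (j + 1)).card = i) :
    Nat.card (Stage A C S j) = i ! := by
  classical
  have h1 : Nat.card (Stage A C S j) = Nat.card ((S j : Set K) ≃ (S (j + 1) : Set K)) := by
    refine Nat.card_congr ⟨fun e => e.1, fun e => ⟨e, fun h0 => absurd h0 hj⟩, fun e => rfl,
      fun e => rfl⟩
  rw [h1]
  have e0 : (S j : Set K) ≃ (S (j + 1) : Set K) := by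
    refine Fintype.equivOfCardEq ?_
    simp [h, h']
  rw [Nat.card_eq_fintype_card, Fintype.card_equiv e0]
  simp [h]

theorem stage_card_le {A C : K → Prop} {S : Fin (n + 2) → Finset K} {j : Fin (n + 2)}
    {i : ℕ} (h : (S j).card = i) (h' : (S (j + 1)).card = i) :
    Nat.card (Stage A C S j) ≤ i ! := by
  classical
  have h1 : Nat.card (Stage A C S j) ≤ Nat.card ((S j : Set K) ≃ (S (j + 1) : Set K)) := by
    refine Nat.card_le_card_of_injective (fun e => e.1) ?_
    intro e e' h; exact Subtype.ext h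
  have e0 : (S j : Set K) ≃ (S (j + 1) : Set K) := by
    refine Fintype.equivOfCardEq ?_
    simp [h, h']
  refine h1.trans ?_
  rw [Nat.card_eq_fintype_card, Fintype.card_equiv e0]
  simp [h]

theorem all_card {A C : K → Prop} {S : Fin (n + 2) → Finset K}
    (h : ∏ j, Nat.card (Stage A C S j) ≠ 0) (j : Fin (n + 2)) : (S j).card = (S 0).card := by
  have h1 : ∀ j, (S j).card = (S (j + 1)).card := fun j =>
    stage_ne_zero (Finset.prod_ne_zero_iff.mp h j (Finset.mem_univ _))
  induction j using Fin.induction with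
  | zero => rfl
  | succ i ih =>
    rw [← ih, h1 i.castSucc, Fin.coeSucc_eq_succ]

open Classical in
theorem sum_univ (A C : K → Prop) :
    ∑ S ∈ (Finset.univ : Finset (Fin (n + 2) → Finset K)).filter
      (fun S => (S 0).card = Fintype.card K), ∏ j, Nat.card (Stage A C S j) =
      Nat.card {e : K ≃ K // ∀ a, A a → C (e a)} * ((Fintype.card K)!) ^ (n + 1) := by
  rw [Finset.sum_eq_single (fun _ => Finset.univ)]
  · have h0 : Nat.card (Stage (n := n) A C (fun _ => Finset.univ) 0) =
        Nat.card {e : K ≃ K // ∀ a, A a → C (e a)} := by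
      let u : (((Finset.univ : Finset K) : Set K) : Type) ≃ K :=
        ⟨fun a => a.1, fun a => ⟨a, by simp⟩, fun a => rfl, fun a => rfl⟩
      refine Nat.card_congr (Equiv.subtypeEquiv (Equiv.equivCongr u u) ?_)
      intro e
      constructor
      · intro h a ha
        exact h rfl (u.symm a) ha
      · intro h _ a ha
        exact h a.1 ha
    rw [Fin.prod_univ_succ, h0]
    congr 1
    rw [Finset.prod_congr rfl (fun j _ => stage_card_ne (i := Fintype.card K)
      (Fin.succ_ne_zero j) (by simp) (by simp))]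
    simp
  · intro S hS hne
    by_contra h
    apply hne
    funext j
    rw [← Finset.card_eq_iff_eq_univ, all_card h j]
    exact (Finset.mem_filter.mp hS).2
  · intro h
    exact absurd (Finset.mem_filter.mpr ⟨Finset.mem_univ _, by simp⟩) h

theorem sum_holes [DecidableEq K] (A C : K → Prop) {k : ℕ} (hk : Fintype.card K = k + 1) :
    ∑ S ∈ (Finset.univ : Finset (Fin (n + 2) → Finset K)).filter
      (fun S => (S 0).card = k), ∏ j, Nat.card (Stage A C S j) =
      (∑ u : K, ∑ v : K, Nat.card {e : (({u}ᶜ : Finset K) : Set K) ≃ (({v}ᶜ : Finset K) : Set K) //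
        ∀ a, A a.1 → C (e a).1}) * (k + 1) ^ n * (k !) ^ (n + 1) := by
  have hc : ∀ x : K, ({x}ᶜ : Finset K).card = k := by
    intro x; rw [Finset.card_compl, Finset.card_singleton, hk]; rfl
  let hol : (Fin (n + 2) → K) → (Fin (n + 2) → Finset K) := fun x j => {x j}ᶜ
  have hhol : Function.Injective hol := by
    intro x y h
    funext j
    have := congrFun h j
    simpa [hol] using this
  have h1 : ∑ S ∈ (Finset.univ : Finset (Fin (n + 2) → Finset K)).filter
      (fun S => (S 0).card = k), ∏ j, Nat.card (Stage A C S j) =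
      ∑ S ∈ Finset.univ.image hol, ∏ j, Nat.card (Stage A C S j) := by
    symm
    apply Finset.sum_subset
    · intro S hS
      obtain ⟨x, -, rfl⟩ := Finset.mem_image.mp hS
      rw [Finset.mem_filter]
      exact ⟨Finset.mem_univ _, hc _⟩
    · intro S hS hS'
      by_contra h
      apply hS'
      have h2 : ∀ j, (S j).card = k := fun j => by
        rw [all_card h j]; exact (Finset.mem_filter.mp hS).2
      have h3 : ∀ j, ∃ x, S j = {x}ᶜ := by
        intro j
        have h4 : ((S j)ᶜ).card = 1 := by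
          rw [Finset.card_compl, h2 j, hk]; omega
        obtain ⟨x, hx⟩ := Finset.card_eq_one.mp h4
        exact ⟨x, by rw [← hx, compl_compl]⟩
      choose x hx using h3
      rw [Finset.mem_image]
      exact ⟨x, Finset.mem_univ _, by funext j; exact (hx j).symm⟩
  rw [h1, Finset.sum_image (fun x _ y _ h => hhol h)]
  have h2 : ∀ x : Fin (n + 2) → K, ∏ j, Nat.card (Stage A C (hol x) j) =
      Nat.card {e : (({x 0}ᶜ : Finset K) : Set K) ≃ (({x 1}ᶜ : Finset K) : Set K) //
        ∀ a, A a.1 → C (e a).1} * (k !) ^ (n + 1) := by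
    intro x
    rw [Fin.prod_univ_succ]
    congr 1
    · refine Nat.card_congr ⟨fun e => ⟨e.1, e.2 rfl⟩, fun e => ⟨e.1, fun _ => e.2⟩, fun e => rfl,
        fun e => rfl⟩
    · rw [Finset.prod_congr rfl (fun j _ => stage_card_ne (i := k)
        (Fin.succ_ne_zero j) (hc _) (hc _))]
      simp
  rw [Finset.sum_congr rfl (fun x _ => h2 x), ← Finset.sum_mul]
  congr 1
  rw [← Fintype.sum_equiv (Fin.consEquiv (fun _ : Fin (n + 2) => K)) _ _ (fun _ => rfl)]
  rw [Fintype.sum_prod_type, Finset.sum_mul]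
  refine Finset.sum_congr rfl fun u _ => ?_
  rw [← Fintype.sum_equiv (Fin.consEquiv (fun _ : Fin (n + 1) => K)) _ _ (fun _ => rfl)]
  rw [Fintype.sum_prod_type, Finset.sum_mul]
  refine Finset.sum_congr rfl fun v _ => ?_
  have h5 : ∀ y : Fin n → K, Nat.card {e : (({(Fin.cons u (Fin.cons v y : Fin (n + 1) → K) :
      Fin (n + 2) → K) 0}ᶜ : Finset K) : Set K) ≃
      (({(Fin.cons u (Fin.cons v y : Fin (n + 1) → K) : Fin (n + 2) → K) 1}ᶜ : Finset K) : Set K) //
        ∀ a, A a.1 → C (e a).1} = Nat.card {e : (({u}ᶜ : Finset K) : Set K) ≃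
        (({v}ᶜ : Finset K) : Set K) // ∀ a, A a.1 → C (e a).1} := by
    intro y
    rfl
  refine (Finset.sum_congr rfl (fun y _ => h5 y)).trans ?_
  rw [Finset.sum_const, Finset.card_univ, Fintype.card_fun, Fintype.card_fin, hk, smul_eq_mul,
    mul_comm]

open Classical in
theorem sum_tail (A C : K → Prop) {k : ℕ} (hk : Fintype.card K = k + 1) :
    ∑ S ∈ (Finset.univ : Finset (Fin (n + 2) → Finset K)).filter
      (fun S => (S 0).card < k), ∏ j, Nat.card (Stage A C S j) ≤
      ∑ i ∈ Finset.range k, ((k + 1).choose i * i !) ^ (n + 2) := by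
  have h1 : ∑ S ∈ (Finset.univ : Finset (Fin (n + 2) → Finset K)).filter
      (fun S => (S 0).card < k), ∏ j, Nat.card (Stage A C S j) ≤
      ∑ S ∈ (Finset.univ : Finset (Fin (n + 2) → Finset K)).filter
      (fun S => (S 0).card < k), ∑ i ∈ Finset.range k,
        if (∀ j, (S j).card = i) then (i !) ^ (n + 2) else 0 := by
    refine Finset.sum_le_sum fun S hS => ?_
    by_cases h : ∏ j, Nat.card (Stage A C S j) = 0
    · rw [h]; exact Nat.zero_le _
    · have h2 := all_card h
      have h3 : (S 0).card < k := (Finset.mem_filter.mp hS).2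
      rw [Finset.sum_eq_single (S 0).card]
      · rw [if_pos h2]
        calc ∏ j, Nat.card (Stage A C S j) ≤ ∏ _j : Fin (n + 2), ((S 0).card)! :=
              Finset.prod_le_prod' fun j _ => stage_card_le (h2 j) (h2 (j + 1))
          _ = _ := by simp
      · intro i _ hi
        rw [if_neg]
        intro h4
        exact hi (h4 0).symm
      · intro h4
        exact absurd (Finset.mem_range.mpr h3) h4
  refine h1.trans ?_
  rw [Finset.sum_comm]
  refine Finset.sum_le_sum fun i _ => ?_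
  rw [mul_pow, ← Finset.sum_filter, Finset.sum_const, smul_eq_mul]
  refine Nat.mul_le_mul_right _ ?_
  have h6 : (Fintype.piFinset (fun _ : Fin (n + 2) =>
      Finset.powersetCard i (Finset.univ : Finset K))).card = (k + 1).choose i ^ (n + 2) := by
    rw [Fintype.card_piFinset]
    simp [hk]
  rw [← h6]
  refine Finset.card_le_card ?_
  intro S hS
  rw [Fintype.mem_piFinset]
  intro j
  rw [Finset.mem_powersetCard]
  exact ⟨Finset.subset_univ _, (Finset.mem_filter.mp hS).2 j⟩

end count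

section arith

theorem card_compl_sub {K : Type} [Fintype K] [DecidableEq K] (P : K → Prop) [DecidablePred P]
    (u : K) : Nat.card {a : (({u}ᶜ : Finset K) : Set K) // P a.1} =
      if P u then (Finset.univ.filter P).card - 1 else (Finset.univ.filter P).card := by
  have h1 : Nat.card {a : (({u}ᶜ : Finset K) : Set K) // P a.1} =
      ((Finset.univ.filter P).erase u).card := by
    rw [← Nat.card_eq_finsetCard]
    refine Nat.card_congr ⟨fun a => ⟨a.1.1, ?_⟩, fun a => ⟨⟨a.1, ?_⟩, ?_⟩, fun a => rfl,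
      fun a => rfl⟩
    · rw [Finset.mem_erase, Finset.mem_filter]
      have := a.1.2
      simp only [Finset.coe_compl, Finset.coe_singleton, Set.mem_compl_iff,
        Set.mem_singleton_iff] at this
      exact ⟨this, Finset.mem_univ _, a.2⟩
    · have := a.2
      rw [Finset.mem_erase] at this
      simpa using this.1
    · have := a.2
      rw [Finset.mem_erase, Finset.mem_filter] at this
      exact this.2.2
  rw [h1, Finset.card_erase_eq_ite]
  simp

theorem card_hole {K : Type} [Fintype K] [DecidableEq K] (A C : K → Prop) [DecidablePred A]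
    [DecidablePred C] {k : ℕ} (hk : Fintype.card K = k + 1) (u v : K) :
    Nat.card {e : (({u}ᶜ : Finset K) : Set K) ≃ (({v}ᶜ : Finset K) : Set K) //
        ∀ a, A a.1 → C (e a).1} =
      (if C v then (Finset.univ.filter C).card - 1 else (Finset.univ.filter C).card).descFactorial
        (if A u then (Finset.univ.filter A).card - 1 else (Finset.univ.filter A).card) *
      (k - (if A u then (Finset.univ.filter A).card - 1 else (Finset.univ.filter A).card))! := by
  have hc : ∀ x : K, ({x}ᶜ : Finset K).card = k := by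
    intro x; rw [Finset.card_compl, Finset.card_singleton, hk]; rfl
  have e0 : (({u}ᶜ : Finset K) : Set K) ≃ (({v}ᶜ : Finset K) : Set K) := by
    refine Fintype.equivOfCardEq ?_
    simp only [Finset.coe_sort_coe, Fintype.card_coe]
    rw [hc, hc]
  rw [card_restr e0 (fun a => A a.1) (fun b => C b.1), card_compl_sub, card_compl_sub]
  congr 2
  rw [Nat.card_coe_set_eq, Set.ncard_coe_finset, hc]

theorem R_eq (μ ρ t : ℕ) (ht : μ + 1 = ρ + t) :
    2 * (ρ + 1) * (∑ u : Fin (2 * μ + 2), ∑ v : Fin (2 * μ + 2),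
      Nat.card {e : (({u}ᶜ : Finset (Fin (2 * μ + 2))) : Set (Fin (2 * μ + 2))) ≃
        (({v}ᶜ : Finset (Fin (2 * μ + 2))) : Set (Fin (2 * μ + 2))) //
        ∀ a, a.1.val < μ + 1 → (e a).1.val < μ + ρ + 1}) =
    (μ + ρ + 3) * ((2 * μ + 2) * Nat.card {e : Fin (2 * μ + 2) ≃ Fin (2 * μ + 2) //
      ∀ a, a.val < μ + 1 → (e a).val < μ + ρ + 1}) := by
  have hA : ((Finset.univ : Finset (Fin (2 * μ + 2))).filter fun a => a.val < μ + 1).card
      = μ + 1 := by
    rw [Fin.card_filter_val_lt]; omega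
  have hC : ((Finset.univ : Finset (Fin (2 * μ + 2))).filter fun a => a.val < μ + ρ + 1).card
      = μ + ρ + 1 := by
    rw [Fin.card_filter_val_lt]; omega
  have hN : Nat.card {e : Fin (2 * μ + 2) ≃ Fin (2 * μ + 2) //
      ∀ a, a.val < μ + 1 → (e a).val < μ + ρ + 1} =
      (μ + ρ + 1).descFactorial (μ + 1) * (μ + 1)! := by
    rw [card_restr (Equiv.refl _) (fun a : Fin (2 * μ + 2) => a.val < μ + 1)
      (fun a : Fin (2 * μ + 2) => a.val < μ + ρ + 1)]
    rw [Nat.card_eq_fintype_card, Nat.card_eq_fintype_card, Nat.card_eq_fintype_card,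
      Fintype.card_subtype, Fintype.card_subtype, hA, hC, Fintype.card_fin]
    congr 2
    omega
  rw [hN]
  simp only [card_hole (fun a : Fin (2 * μ + 2) => a.val < μ + 1)
    (fun a : Fin (2 * μ + 2) => a.val < μ + ρ + 1) (k := 2 * μ + 1) (by simp), hA, hC]
  set D0 := (μ + ρ + 1).descFactorial μ with hD0
  have d1 : (μ + ρ + 1).descFactorial (μ + 1) = (ρ + 1) * D0 := by
    rw [Nat.descFactorial_succ, hD0]; congr 1; omega
  have d2 : (μ + ρ + 1) * (μ + ρ).descFactorial μ = (ρ + 1) * D0 := by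
    rw [← Nat.succ_descFactorial_succ]; exact d1
  have d3 : (μ + ρ + 1) * (μ + ρ).descFactorial (μ + 1) = ρ * ((ρ + 1) * D0) := by
    rw [← Nat.succ_descFactorial_succ, Nat.descFactorial_succ, d1]; congr 1; omega
  have inner : ∀ (a' f : ℕ), ∑ v : Fin (2 * μ + 2),
      (if v.val < μ + ρ + 1 then μ + ρ + 1 - 1 else μ + ρ + 1).descFactorial a' * f =
      ((μ + ρ + 1) * (μ + ρ).descFactorial a' + t * (μ + ρ + 1).descFactorial a') * f := by
    intro a' f
    rw [← Finset.sum_mul]
    congr 1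
    rw [← Finset.sum_filter_add_sum_filter_not Finset.univ
      (fun v : Fin (2 * μ + 2) => v.val < μ + ρ + 1)]
    congr 1
    · rw [Finset.sum_congr rfl (g := fun _ => (μ + ρ).descFactorial a')
        (fun v hv => by rw [if_pos (Finset.mem_filter.mp hv).2]; rfl), Finset.sum_const, hC,
        smul_eq_mul]
    · rw [Finset.sum_congr rfl (g := fun _ => (μ + ρ + 1).descFactorial a')
        (fun v hv => by rw [if_neg (Finset.mem_filter.mp hv).2]), Finset.sum_const, smul_eq_mul]
      congr 1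
      rw [Finset.filter_not, Finset.card_sdiff_of_subset (Finset.filter_subset _ _), hC]
      simp
      omega
  simp only [inner]
  rw [← Finset.sum_filter_add_sum_filter_not Finset.univ
      (fun v : Fin (2 * μ + 2) => v.val < μ + 1)]
  rw [Finset.sum_congr rfl (g := fun _ => ((μ + ρ + 1) * (μ + ρ).descFactorial μ +
      t * (μ + ρ + 1).descFactorial μ) * (μ + 1)!)
      (fun v hv => by
        rw [if_pos (Finset.mem_filter.mp hv).2]
        have e1 : μ + 1 - 1 = μ := rfl
        have e2 : 2 * μ + 1 - μ = μ + 1 := by omega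
        rw [e1, e2]), Finset.sum_const, hA, smul_eq_mul]
  rw [Finset.sum_congr rfl (g := fun _ => ((μ + ρ + 1) * (μ + ρ).descFactorial (μ + 1) +
      t * (μ + ρ + 1).descFactorial (μ + 1)) * μ !)
      (fun v hv => by
        rw [if_neg (Finset.mem_filter.mp hv).2]
        have e2 : 2 * μ + 1 - (μ + 1) = μ := by omega
        rw [e2]), Finset.sum_const, smul_eq_mul]
  have hB : ((Finset.univ : Finset (Fin (2 * μ + 2))).filter fun a => ¬ a.val < μ + 1).card
      = μ + 1 := by
    rw [Finset.filter_not, Finset.card_sdiff_of_subset (Finset.filter_subset _ _), hA]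
    simp
    omega
  rw [hB, d1, d2, d3, ← hD0, Nat.factorial_succ]
  have e3 : t = μ + 1 - ρ := by omega
  zify at ht ⊢
  have e4 : (t : ℤ) = μ + 1 - ρ := by linarith
  rw [e4]
  ring

theorem der_eq2 {K : Type} [Fintype K] {n : ℕ} (A C : K → Prop) :
    der (LArc (n := n) A C) =
      Nat.card {e : K ≃ K // ∀ a, A a → C (e a)} * ((Fintype.card K)!) ^ (n + 1) := by
  classical
  rw [der_eq, Fin.prod_univ_succ]
  congr 1
  · refine Nat.card_congr ⟨fun e => ⟨e.1, e.2 rfl⟩, fun e => ⟨e.1, fun _ => e.2⟩, fun e => rfl,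
        fun e => rfl⟩
  · have : ∀ j : Fin (n + 1), Nat.card {e : K ≃ K // j.succ = 0 → ∀ a, A a → C (e a)} =
        (Fintype.card K)! := by
      intro j
      have h1 : Nat.card {e : K ≃ K // j.succ = 0 → ∀ a, A a → C (e a)} = Nat.card (K ≃ K) :=
        Nat.card_congr ⟨fun e => e.1, fun e => ⟨e, fun h0 => absurd h0 (Fin.succ_ne_zero j)⟩,
          fun e => rfl, fun e => rfl⟩
      rw [h1, Nat.card_eq_fintype_card, Fintype.card_equiv (Equiv.refl K)]
    rw [Finset.prod_congr rfl (fun j _ => this j)]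
    simp

theorem bounds (μ ρ t n : ℕ) (ht : μ + 1 = ρ + t) :
    (μ + 3 * ρ + 5) * der (LArc (n := n) (fun a : Fin (2 * μ + 2) => a.val < μ + 1)
      (fun a : Fin (2 * μ + 2) => a.val < μ + ρ + 1)) ≤
      2 * (ρ + 1) * prm (LArc (n := n) (fun a : Fin (2 * μ + 2) => a.val < μ + 1)
      (fun a : Fin (2 * μ + 2) => a.val < μ + ρ + 1)) ∧
    2 * (ρ + 1) * prm (LArc (n := n) (fun a : Fin (2 * μ + 2) => a.val < μ + 1)
      (fun a : Fin (2 * μ + 2) => a.val < μ + ρ + 1)) ≤
    (μ + 3 * ρ + 5) * der (LArc (n := n) (fun a : Fin (2 * μ + 2) => a.val < μ + 1)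
      (fun a : Fin (2 * μ + 2) => a.val < μ + ρ + 1)) + 2 * (ρ + 1) *
      ∑ i ∈ Finset.range (2 * μ + 1), ((2 * μ + 2).choose i * i !) ^ (n + 2) ∧
    ((2 * μ + 2)!) ^ (n + 1) ≤ der (LArc (n := n) (fun a : Fin (2 * μ + 2) => a.val < μ + 1)
      (fun a : Fin (2 * μ + 2) => a.val < μ + ρ + 1)) := by
  classical
  set A : Fin (2 * μ + 2) → Prop := fun a => a.val < μ + 1 with hA
  set C : Fin (2 * μ + 2) → Prop := fun a => a.val < μ + ρ + 1 with hC
  have hk : Fintype.card (Fin (2 * μ + 2)) = (2 * μ + 1) + 1 := by simp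
  have e1 := sum_univ (n := n) A C
  have e2 := sum_holes (n := n) A C hk
  have e3 := sum_tail (n := n) A C hk
  have e4 := der_eq2 (n := n) A C
  rw [← e4] at e1
  have eR : 2 * (ρ + 1) * (∑ u : Fin (2 * μ + 2), ∑ v : Fin (2 * μ + 2),
      Nat.card {e : (({u}ᶜ : Finset (Fin (2 * μ + 2))) : Set (Fin (2 * μ + 2))) ≃
        (({v}ᶜ : Finset (Fin (2 * μ + 2))) : Set (Fin (2 * μ + 2))) //
        ∀ a, A a.1 → C (e a).1}) =
    (μ + ρ + 3) * ((2 * μ + 1 + 1) * Nat.card {e : Fin (2 * μ + 2) ≃ Fin (2 * μ + 2) //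
      ∀ a, A a → C (e a)}) := R_eq μ ρ t ht
  have hsplit : prm (LArc (n := n) A C) =
      ∑ S ∈ (Finset.univ : Finset (Fin (n + 2) → Finset (Fin (2 * μ + 2)))).filter
        (fun S => (S 0).card = Fintype.card (Fin (2 * μ + 2))), ∏ j, Nat.card (Stage A C S j) +
      ∑ S ∈ (Finset.univ : Finset (Fin (n + 2) → Finset (Fin (2 * μ + 2)))).filter
        (fun S => (S 0).card = 2 * μ + 1), ∏ j, Nat.card (Stage A C S j) +
      ∑ S ∈ (Finset.univ : Finset (Fin (n + 2) → Finset (Fin (2 * μ + 2)))).filter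
        (fun S => (S 0).card < 2 * μ + 1), ∏ j, Nat.card (Stage A C S j) := by
    rw [prm_eq, Finset.sum_filter, Finset.sum_filter, Finset.sum_filter, ← Finset.sum_add_distrib,
      ← Finset.sum_add_distrib]
    refine Finset.sum_congr rfl fun S _ => ?_
    have hle : (S 0).card ≤ 2 * μ + 2 := by
      have := Finset.card_le_univ (S 0)
      simpa using this
    rw [hk]
    rcases lt_trichotomy (S 0).card (2 * μ + 1) with h | h | h
    · rw [if_neg (by omega), if_neg (by omega), if_pos h]; simp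
    · rw [if_neg (by omega), if_pos h, if_neg (by omega)]; simp
    · rw [if_pos (by omega), if_neg (by omega), if_neg (by omega)]; simp
  have hG : 2 * (ρ + 1) * (∑ S ∈ (Finset.univ :
        Finset (Fin (n + 2) → Finset (Fin (2 * μ + 2)))).filter
        (fun S => (S 0).card = 2 * μ + 1), ∏ j, Nat.card (Stage A C S j)) =
      (μ + ρ + 3) * der (LArc (n := n) A C) := by
    rw [e2, e4, hk, Nat.factorial_succ (2 * μ + 1), mul_pow]
    generalize (2 * μ + 1)! = f
    generalize (∑ u : Fin (2 * μ + 2), ∑ v : Fin (2 * μ + 2),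
      Nat.card {e : (({u}ᶜ : Finset (Fin (2 * μ + 2))) : Set (Fin (2 * μ + 2))) ≃
        (({v}ᶜ : Finset (Fin (2 * μ + 2))) : Set (Fin (2 * μ + 2))) //
        ∀ a, A a.1 → C (e a).1}) = X at eR ⊢
    generalize Nat.card {e : Fin (2 * μ + 2) ≃ Fin (2 * μ + 2) // ∀ a, A a → C (e a)} = N at eR ⊢
    calc 2 * (ρ + 1) * (X * (2 * μ + 1 + 1) ^ n * f ^ (n + 1)) =
        (2 * (ρ + 1) * X) * ((2 * μ + 1 + 1) ^ n * f ^ (n + 1)) := by ring
      _ = _ := by rw [eR]; ring
  refine ⟨?_, ?_, ?_⟩
  · rw [hsplit, e1, mul_add, mul_add, hG]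
    nlinarith [Nat.zero_le (2 * (ρ + 1) * ∑ S ∈ (Finset.univ :
        Finset (Fin (n + 2) → Finset (Fin (2 * μ + 2)))).filter
        (fun S => (S 0).card < 2 * μ + 1), ∏ j, Nat.card (Stage A C S j))]
  · rw [hsplit, e1, mul_add, mul_add, hG]
    have := Nat.mul_le_mul_left (2 * (ρ + 1)) e3
    nlinarith [this]
  · rw [e4]
    have hpos : 0 < Nat.card {e : Fin (2 * μ + 2) ≃ Fin (2 * μ + 2) // ∀ a, A a → C (e a)} := by
      have : Nonempty {e : Fin (2 * μ + 2) ≃ Fin (2 * μ + 2) // ∀ a, A a → C (e a)} :=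
        ⟨⟨Equiv.refl _, fun a ha => by
          simp only [hA, hC, Equiv.refl_apply] at ha ⊢; omega⟩⟩
      exact Nat.card_pos
    have h2 : Fintype.card (Fin (2 * μ + 2)) = 2 * μ + 2 := by simp
    rw [h2]
    exact Nat.le_mul_of_pos_left _ hpos

end arith

section final

theorem tail_bound (k n : ℕ) :
    ((∑ i ∈ Finset.range k, ((k + 1).choose i * i !) ^ (n + 2) : ℕ) : ℝ) ≤
      ((k + 1)! : ℝ) ^ (n + 1) * (k * (k + 1)! * (1 / 2) ^ (n + 2)) := by
  have h1 : ∀ i ∈ Finset.range k, (((k + 1).choose i * i ! : ℕ) : ℝ) ^ (n + 2) ≤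
      (((k + 1)! : ℝ) / 2) ^ (n + 2) := by
    intro i hi
    have hi' : i < k := Finset.mem_range.mp hi
    refine pow_le_pow_left₀ (by positivity) ?_ _
    rw [le_div_iff₀ (by norm_num)]
    have h2 := Nat.choose_mul_factorial_mul_factorial (n := k + 1) (k := i) (by omega)
    have h3 : 2 ≤ (k + 1 - i)! := by
      calc 2 = 2 ! := rfl
        _ ≤ (k + 1 - i)! := Nat.factorial_le (by omega)
    have h4 : (k + 1).choose i * i ! * 2 ≤ (k + 1)! := by
      calc (k + 1).choose i * i ! * 2 ≤ (k + 1).choose i * i ! * (k + 1 - i)! :=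
            Nat.mul_le_mul_left _ h3
        _ = (k + 1)! := h2
    exact_mod_cast h4
  push_cast
  have h5 : ∑ i ∈ Finset.range k, (((k + 1).choose i : ℝ) * (i ! : ℝ)) ^ (n + 2) ≤
      ∑ _i ∈ Finset.range k, (((k + 1)! : ℝ) / 2) ^ (n + 2) := by
    refine Finset.sum_le_sum fun i hi => ?_
    have := h1 i hi
    push_cast at this
    exact this
  refine h5.trans (le_of_eq ?_)
  rw [Finset.sum_const, Finset.card_range, nsmul_eq_mul, div_pow]
  rw [pow_succ ((k + 1)! : ℝ) (n + 1)]
  have h6 : ((2 : ℝ)) ^ (n + 2) * (1 / 2) ^ (n + 2) = 1 := by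
    rw [← mul_pow]; norm_num
  have h7 : (0 : ℝ) < (2 : ℝ) ^ (n + 2) := by positivity
  field_simp
  rw [mul_assoc, h6, mul_one]

theorem larc_irrefl {K : Type} {n : ℕ} (A C : K → Prop) (v : Fin (n + 2) × K) :
    ¬ LArc A C v v := fun h => succ_ne v.1 h.1.symm

/-- **The ratios `(d/p)_G` are dense in `[0, 1/2]`.** For all reals `0 ≤ a < b ≤ 1/2` there is a
finite loopless digraph `G` (arc relation `E` on a finite nonempty vertex set `V`) whose number of
derangements divided by its number of permutations lies strictly between `a` and `b`. -/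
theorem result (a b : ℝ) (ha : 0 ≤ a) (hab : a < b) (hb : b ≤ 1 / 2) :
    ∃ (V : Type) (_ : Finite V) (_ : Nonempty V) (E : V → V → Prop), (∀ v, ¬ E v v) ∧
      a < (der E : ℝ) / (prm E : ℝ) ∧ (der E : ℝ) / (prm E : ℝ) < b := by
  obtain ⟨q, hq1, hq2⟩ := exists_rat_btwn hab
  have hq0 : (0 : ℝ) < q := lt_of_le_of_lt ha hq1
  have hq0' : 0 < q := by exact_mod_cast hq0
  have hqhalf : (q : ℝ) < 1 / 2 := lt_of_lt_of_le hq2 hb
  obtain ⟨ρ, hρ⟩ : ∃ ρ : ℕ, q.num = (ρ : ℤ) + 1 := by
    have h1 : 0 < q.num := Rat.num_pos.mpr hq0'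
    exact ⟨(q.num - 1).toNat, by omega⟩
  have hqeq : (q : ℝ) = ((ρ : ℝ) + 1) / (q.den : ℝ) := by
    have h1 : (q : ℝ) = (q.num : ℝ) / (q.den : ℝ) := by exact_mod_cast (Rat.num_div_den q).symm
    rw [h1, hρ]; push_cast; rfl
  have hdpos : (0 : ℝ) < (q.den : ℝ) := by exact_mod_cast q.den_pos
  have hden : 2 * (ρ + 1) < q.den := by
    have h1 : ((ρ : ℝ) + 1) / (q.den : ℝ) < 1 / 2 := by rw [← hqeq]; exact hqhalf
    rw [div_lt_iff₀ hdpos] at h1
    have h2 : 2 * ((ρ : ℝ) + 1) < (q.den : ℝ) := by linarith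
    exact_mod_cast h2
  obtain ⟨s, hs⟩ : ∃ s : ℕ, q.den = 2 * (ρ + 1) + s + 1 := ⟨q.den - 2 * (ρ + 1) - 1, by omega⟩
  set μ : ℕ := ρ + 2 * s + 1 with hμ
  set k : ℕ := 2 * μ + 1 with hk
  set ε : ℝ := (q - a) / (q * (a + 1)) with hε
  have hεpos : 0 < ε := by
    rw [hε]; exact div_pos (by linarith) (mul_pos hq0 (by linarith))
  have hW : (0 : ℝ) < k * (k + 1)! := by
    have : 0 < k * (k + 1)! := Nat.mul_pos (by omega) (Nat.factorial_pos _)
    exact_mod_cast this
  obtain ⟨n, hn⟩ := exists_pow_lt_of_lt_one (div_pos hεpos hW) (by norm_num : (1 / 2 : ℝ) < 1)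
  have hn2 : (k : ℝ) * (k + 1)! * (1 / 2) ^ (n + 2) < ε := by
    have h1 : ((1 : ℝ) / 2) ^ (n + 2) ≤ (1 / 2) ^ n :=
      pow_le_pow_of_le_one (by norm_num) (by norm_num) (by omega)
    calc (k : ℝ) * (k + 1)! * (1 / 2) ^ (n + 2) ≤ (k : ℝ) * (k + 1)! * (1 / 2) ^ n :=
          mul_le_mul_of_nonneg_left h1 hW.le
      _ < (k : ℝ) * (k + 1)! * (ε / (k * (k + 1)!)) := mul_lt_mul_of_pos_left hn hW
      _ = ε := mul_div_cancel₀ _ hW.ne'
  obtain ⟨b1, b2, b3⟩ := bounds μ ρ (2 * s + 2) n (by omega)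
  set E := LArc (n := n) (fun a : Fin (2 * μ + 2) => a.val < μ + 1)
      (fun a : Fin (2 * μ + 2) => a.val < μ + ρ + 1) with hE
  set T := ∑ i ∈ Finset.range (2 * μ + 1), ((2 * μ + 2).choose i * i !) ^ (n + 2) with hT
  have hTb : (T : ℝ) ≤ ((k + 1)! : ℝ) ^ (n + 1) * (k * (k + 1)! * (1 / 2) ^ (n + 2)) :=
    tail_bound k n
  have hmu : μ + 3 * ρ + 5 = 2 * q.den := by omega
  rw [hmu] at b1 b2
  have c1 : 2 * (q.den : ℝ) * (der E : ℝ) ≤ 2 * ((ρ : ℝ) + 1) * (prm E : ℝ) := by
    exact_mod_cast b1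
  have c2 : 2 * ((ρ : ℝ) + 1) * (prm E : ℝ) ≤
      2 * (q.den : ℝ) * (der E : ℝ) + 2 * ((ρ : ℝ) + 1) * (T : ℝ) := by
    exact_mod_cast b2
  have c3 : ((k + 1)! : ℝ) ^ (n + 1) ≤ (der E : ℝ) := by
    exact_mod_cast b3
  have hder : (0 : ℝ) < (der E : ℝ) := lt_of_lt_of_le (by positivity) c3
  have hρ0 : (0 : ℝ) < (ρ : ℝ) + 1 := by positivity
  have hprm : (0 : ℝ) < (prm E : ℝ) := by
    by_contra h
    have h0 : (prm E : ℝ) ≤ 0 := not_lt.mp h
    have h1 : 2 * ((ρ : ℝ) + 1) * (prm E : ℝ) ≤ 0 :=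
      mul_nonpos_of_nonneg_of_nonpos (by positivity) h0
    have h2 : 0 < 2 * (q.den : ℝ) * (der E : ℝ) := by positivity
    linarith
  have hTder : (T : ℝ) < ε * (der E : ℝ) := by
    calc (T : ℝ) ≤ ((k + 1)! : ℝ) ^ (n + 1) * (k * (k + 1)! * (1 / 2) ^ (n + 2)) := hTb
      _ ≤ (der E : ℝ) * (k * (k + 1)! * (1 / 2) ^ (n + 2)) :=
          mul_le_mul_of_nonneg_right c3 (by positivity)
      _ < (der E : ℝ) * ε := mul_lt_mul_of_pos_left hn2 hder
      _ = ε * (der E : ℝ) := mul_comm _ _
  refine ⟨Fin (n + 2) × Fin (2 * μ + 2), inferInstance, inferInstance, E, ?_, ?_, ?_⟩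
  · intro v
    exact larc_irrefl _ _ v
  · rw [lt_div_iff₀ hprm]
    -- `prm ≤ der / q + T`
    have h1 : (prm E : ℝ) ≤ (der E : ℝ) / q + T := by
      rw [hqeq]
      have h2 : ((ρ : ℝ) + 1) * (prm E : ℝ) ≤ ((ρ : ℝ) + 1) *
          ((der E : ℝ) / (((ρ : ℝ) + 1) / (q.den : ℝ)) + T) := by
        have h3 : ((ρ : ℝ) + 1) * ((der E : ℝ) / (((ρ : ℝ) + 1) / (q.den : ℝ)) + T) =
            (q.den : ℝ) * (der E : ℝ) + ((ρ : ℝ) + 1) * T := by
          field_simp
        rw [h3]; linarith
      exact le_of_mul_le_mul_left h2 hρ0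
    have h4 : a * (prm E : ℝ) ≤ a * ((der E : ℝ) / q + T) := mul_le_mul_of_nonneg_left h1 ha
    have h5 : a * (T : ℝ) ≤ a * (ε * (der E : ℝ)) := mul_le_mul_of_nonneg_left hTder.le ha
    have h6 : a * (1 / q + ε) < 1 := by
      have ha1 : (0 : ℝ) < a + 1 := by linarith
      have h7 : a * (1 / (q : ℝ) + ε) = 1 - (q - a) / (q * (a + 1)) := by
        rw [hε]; field_simp; ring
      rw [h7]
      have : 0 < (q - a) / (q * (a + 1)) := hεpos
      linarith
    calc a * (prm E : ℝ) ≤ a * ((der E : ℝ) / q + T) := h4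
      _ = a * ((der E : ℝ) / q) + a * T := by ring
      _ ≤ a * ((der E : ℝ) / q) + a * (ε * (der E : ℝ)) := by linarith
      _ = (der E : ℝ) * (a * (1 / q + ε)) := by ring
      _ < (der E : ℝ) * 1 := mul_lt_mul_of_pos_left h6 hder
      _ = der E := mul_one _
  · refine lt_of_le_of_lt ?_ hq2
    rw [div_le_iff₀ hprm, hqeq, div_mul_eq_mul_div, le_div_iff₀ hdpos]
    linarith

end final

end Pool.Agent.Results.MP_864c98_co.DenseRatios
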